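import Pool.Agent.R228.QG.Tri2

/-!
# A graph with a bridge and infinitely many hot spots

The graph is a triangle with three equal sides of length `arccos (-7/25)` with a pendant edge of
length `arctan (11/24)` at each corner. The three pendant edges are bridges. With the standard
vertex conditions the second eigenvalue is `1`, with a two-dimensional eigenspace, and all points of
a side at distance at least `arctan (11/24)` from the corners are hot spots.
-/

set_option autoImplicit false

namespace Pool.Agent.Results.MP_159dfd_an.BridgeInfinite

open Pool.Agent.R228.QG

/-- There is a compact connected metric graph with standard vertex conditions and with a bridge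
whose hot-spot set is infinite. -/
theorem result : ∃ (V E : Type) (_ : Fintype V) (_ : Fintype E) (_ : DecidableEq V)
    (Γ : MGraph V E), Γ.Connected ∧ (∃ e, Γ.IsBridge e) ∧ (hotSet Γ (fun _ => 0)).Infinite :=
  ⟨Fin 3 ⊕ Fin 3, Fin 3 ⊕ Fin 3, inferInstance, inferInstance, inferInstance, tri, tri_connected,
    ⟨Sum.inr 0, tri_bridge⟩, hot_infinite⟩

end Pool.Agent.Results.MP_159dfd_an.BridgeInfinite
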